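import Mathlib
import Pool.Agent.Lib.MP_4589a7_lc.Model
import Pool.Agent.Lib.MP_4589a7_lc.Final

/-!
# The reversed pattern language is decided in realtime

The language `L = {v # u : v reversed is a contiguous factor of u}` over `{0, 1, #}` belongs to
`REALTIME`: there is a deterministic multitape Turing machine with a one-way read-only input tape
that reads one input symbol in each step and whose state immediately after the last input symbol
tells whether the input belongs to `L`.
-/

namespace Pool.Agent.Results.MP_4589a7_lc.Realtime

/-- **Theorem.** The language of all words `v # u`, with `u, v` over `{0, 1}`, such that the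
reversal of `v` occurs in `u` as a contiguous factor, is in `REALTIME`. -/
theorem result : Pool.Agent.Lib.RT45.RevPattern ∈
    Pool.Agent.Lib.RT45.REALTIME Pool.Agent.Lib.RT45.Letter :=
  Pool.Agent.Lib.RT45.revPattern_mem

end Pool.Agent.Results.MP_4589a7_lc.Realtime
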